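import Mathlib
import Pool.Agent.Q299.Reconstruct

set_option autoImplicit false

namespace Pool.Agent.Results.MP_859560_lc.Lifting

open Pool.Agent.Q299.ClosedMonoids Pool.Agent.Q299.Reconstruct

/-- Let `G` be a closed subgroup of `Sym(Ω)`, `Ω` countably infinite. If `G` is reconstructible with
respect to the class of all closed subgroups of `Sym(Ω)`, then the closure of `G` in `Ω^Ω` is
reconstructible with respect to the class of all closed submonoids of `Ω^Ω`. -/
theorem result (Ω : Type) [Countable Ω] [Infinite Ω] (G : Subgroup (Equiv.Perm Ω))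
    (hG : ClosedGroup G) (h : GroupReconstructible G) :
    MonoidReconstructible (closureMonoid G) := by
  rintro T hT ⟨ψ⟩
  obtain ⟨φ, hφ, hφ'⟩ := h (unitPerms T) (closedGroup_unitPerms hT) ⟨groupIso hG ψ⟩
  have key : ∀ T' : Submonoid (Function.End Ω), T' = T →
      (∃ Φ : closureMonoid G ≃* T',
        @Continuous _ _ (subTop (closureMonoid G)) (subTop T') Φ ∧
        @Continuous _ _ (subTop T') (subTop (closureMonoid G)) Φ.symm) →
      ∃ Φ : closureMonoid G ≃* T,
        @Continuous _ _ (subTop (closureMonoid G)) (subTop T) Φ ∧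
        @Continuous _ _ (subTop T) (subTop (closureMonoid G)) Φ.symm := by
    rintro T' rfl h
    exact h
  exact key _ (eq_closure G T hT ψ) (extend φ hφ hφ')

end Pool.Agent.Results.MP_859560_lc.Lifting
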